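import Pool.Agent.H874R2.WDe

/-!
`MP_b40933_gt`: the perfect image of a `wΔ`-space need not be a `wΔ`-space; the counterexample is a
closed, at most two-to-one continuous map between Tychonoff spaces.
-/

namespace Pool.Agent.Results.MP_b40933_gt.PerfectImage

open H874R2.WD

theorem result :
    ∃ (X Y : Type) (_ : TopologicalSpace X) (_ : TopologicalSpace Y) (f : X → Y),
      T35Space X ∧ T35Space Y ∧ IsWDelta X ∧ IsPerfect f ∧ (∀ y, (f ⁻¹' {y}).encard ≤ 2) ∧
        ¬ IsWDelta Y :=
  ⟨X, Y, inferInstance, inferInstance, f, inferInstance, inferInstance, X_wDelta, f_perfect,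
    f_two, not_wDelta⟩

end Pool.Agent.Results.MP_b40933_gt.PerfectImage
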